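import Pool.Agent.Lib.MP_0e3b4a_gt.Iface3

/-! # SIXA: the algebra of rank two, degree six (helper74) -/

set_option autoImplicit false

namespace Pool.Agent.CutLoci.H74

open MeasureTheory Set Filter Topology

section

variable {g : Type} [NormedAddCommGroup g] [NormedSpace ℝ g] [FiniteDimensional ℝ g]
  (C : Carnot g 2)

theorem expand (a : EE 2) : C.X a = a 0 • C.X (EuclideanSpace.single 0 1) +
    a 1 • C.X (EuclideanSpace.single 1 1) := by
  have h : a = a 0 • (EuclideanSpace.single 0 1 : EE 2) +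
      a 1 • (EuclideanSpace.single 1 1 : EE 2) := by
    ext i
    fin_cases i <;> simp
  conv_lhs => rw [h]
  rw [map_add, map_smul, map_smul]

theorem skew (x y : g) : C.br x y = -C.br y x := by
  have h := C.br_self (x + y)
  simp only [map_add, ContinuousLinearMap.add_apply, C.br_self, zero_add, add_zero] at h
  first
  | exact eq_neg_of_add_eq_zero_left h
  | exact eq_neg_of_add_eq_zero_right h

theorem br_XX (a b : EE 2) : C.br (C.X a) (C.X b) = cr a b • ww C := by
  rw [expand C a, expand C b]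
  unfold ww cr
  simp only [map_add, map_smul, ContinuousLinearMap.add_apply, ContinuousLinearMap.smul_apply,
    C.br_self, smul_zero, smul_add]
  rw [skew C (C.X (EuclideanSpace.single 1 1)) (C.X (EuclideanSpace.single 0 1))]
  module

theorem mem_V1 {x : g} (hx : x ∈ C.V 1) : ∃ a, x = C.X a := by
  rw [← C.X_range] at hx
  obtain ⟨a, ha⟩ := hx
  exact ⟨a, ha.symm⟩

theorem X_mem (a : EE 2) : C.X a ∈ C.V 1 := by
  rw [← C.X_range]
  exact ⟨a, rfl⟩

theorem mem_V2 {x : g} (hx : x ∈ C.V 2) : ∃ c : ℝ, x = c • ww C := by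
  have h := C.gen 1 le_rfl
  rw [show (1 + 1 : ℕ) = 2 from rfl] at h
  rw [h] at hx
  induction hx using Submodule.span_induction with
  | mem z hz =>
    obtain ⟨x, hx, y, hy, rfl⟩ := hz
    obtain ⟨a, rfl⟩ := mem_V1 C hx
    obtain ⟨b, rfl⟩ := mem_V1 C hy
    exact ⟨cr a b, br_XX C a b⟩
  | zero => exact ⟨0, by simp⟩
  | add x y _ _ h1 h2 =>
    obtain ⟨c, rfl⟩ := h1
    obtain ⟨d, rfl⟩ := h2
    exact ⟨c + d, by rw [add_smul]⟩
  | smul t x _ h1 =>
    obtain ⟨c, rfl⟩ := h1
    exact ⟨t * c, by rw [mul_smul]⟩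

theorem ww_mem : ww C ∈ C.V 2 := by
  have h := C.gen 1 le_rfl
  rw [show (1 + 1 : ℕ) = 2 from rfl] at h
  rw [h]
  exact Submodule.subset_span ⟨_, X_mem C _, _, X_mem C _, rfl⟩

theorem mem_V3 {x : g} (hx : x ∈ C.V 3) : ∃ a : EE 2, x = C.br (C.X a) (ww C) := by
  have h := C.gen 2 (by norm_num)
  rw [show (2 + 1 : ℕ) = 3 from rfl] at h
  rw [h] at hx
  induction hx using Submodule.span_induction with
  | mem z hz =>
    obtain ⟨x, hx, y, hy, rfl⟩ := hz
    obtain ⟨a, rfl⟩ := mem_V1 C hx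
    obtain ⟨c, rfl⟩ := mem_V2 C hy
    refine ⟨c • a, ?_⟩
    rw [map_smul, map_smul, map_smul, ContinuousLinearMap.smul_apply]
  | zero => exact ⟨0, by simp⟩
  | add x y _ _ h1 h2 =>
    obtain ⟨c, rfl⟩ := h1
    obtain ⟨d, rfl⟩ := h2
    exact ⟨c + d, by rw [map_add, map_add, ContinuousLinearMap.add_apply]⟩
  | smul t x _ h1 =>
    obtain ⟨c, rfl⟩ := h1
    exact ⟨t • c, by rw [map_smul, map_smul, ContinuousLinearMap.smul_apply]⟩

theorem Xw_mem (a : EE 2) : C.br (C.X a) (ww C) ∈ C.V 3 := by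
  rw [show (3 : ℕ) = 2 + 1 from rfl, C.gen 2 (by norm_num)]
  exact Submodule.subset_span ⟨_, X_mem C _, _, ww_mem C, rfl⟩

theorem XXw_mem (a b : EE 2) : C.br (C.X a) (C.br (C.X b) (ww C)) ∈ C.V 4 := by
  rw [show (4 : ℕ) = 3 + 1 from rfl, C.gen 3 (by norm_num)]
  exact Submodule.subset_span ⟨_, X_mem C _, _, Xw_mem C _, rfl⟩

theorem XXXw_mem (a b c : EE 2) :
    C.br (C.X a) (C.br (C.X b) (C.br (C.X c) (ww C))) ∈ C.V 5 := by
  rw [show (5 : ℕ) = 4 + 1 from rfl, C.gen 4 (by norm_num)]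
  exact Submodule.subset_span ⟨_, X_mem C _, _, XXw_mem C _ _, rfl⟩

theorem V4_ind {p : g → Prop} (h0 : p 0) (ha : ∀ x y, p x → p y → p (x + y))
    (hs : ∀ (t : ℝ) x, p x → p (t • x)) (hg : ∀ a b, p (C.br (C.X a) (C.br (C.X b) (ww C))))
    {x : g} (hx : x ∈ C.V 4) : p x := by
  have h := C.gen 3 (by norm_num)
  rw [show (3 + 1 : ℕ) = 4 from rfl] at h
  rw [h] at hx
  induction hx using Submodule.span_induction with
  | mem z hz =>
    obtain ⟨x, hx, y, hy, rfl⟩ := hz
    obtain ⟨a, rfl⟩ := mem_V1 C hx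
    obtain ⟨b, rfl⟩ := mem_V3 C hy
    exact hg a b
  | zero => exact h0
  | add x y _ _ h1 h2 => exact ha x y h1 h2
  | smul t x _ h1 => exact hs t x h1

theorem Xww (a b : EE 2) : C.br (C.br (C.X a) (ww C)) (C.br (C.X b) (ww C)) =
    cr a b • C.br (C.br (C.X (EuclideanSpace.single 0 1)) (ww C))
      (C.br (C.X (EuclideanSpace.single 1 1)) (ww C)) := by
  rw [expand C a, expand C b]
  simp only [map_add, map_smul, ContinuousLinearMap.add_apply, ContinuousLinearMap.smul_apply,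
    smul_add, C.br_self, smul_zero]
  rw [skew C (C.br (C.X (EuclideanSpace.single 1 1)) (ww C))
    (C.br (C.X (EuclideanSpace.single 0 1)) (ww C))]
  unfold cr
  module

theorem swap (a b : EE 2) : C.br (C.X a) (C.br (C.X b) (ww C)) =
    C.br (C.X b) (C.br (C.X a) (ww C)) := by
  rw [C.jacobi, br_XX, map_smul, ContinuousLinearMap.smul_apply, C.br_self, smul_zero, zero_add]

end

theorem sixa (g : Type) [NormedAddCommGroup g] [NormedSpace ℝ g] [FiniteDimensional ℝ g]
    (hG : GradeStatement g 2) : SixaStatement g := by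
  intro C hD
  obtain ⟨hs, h25, h34⟩ := hD
  have h43 : ∀ x ∈ C.V 4, ∀ y ∈ C.V 3, C.br x y = 0 := by
    intro x hx y hy
    rw [skew C, h34 y hy x hx, neg_zero]
  have h52 : ∀ x ∈ C.V 5, ∀ y ∈ C.V 2, C.br x y = 0 := by
    intro x hx y hy
    rw [skew C, h25 y hy x hx, neg_zero]
  have c2 : ∀ a b c, C.br (C.br (C.X a) (ww C)) (C.br (C.X b) (C.br (C.X c) (ww C))) = 0 :=
    fun a b c => h34 _ (Xw_mem C a) _ (XXw_mem C b c)
  have c3 : ∀ a b c, C.br (C.X a) (C.br (C.br (C.X b) (ww C)) (C.br (C.X c) (ww C))) = 0 := by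
    intro a b c
    rw [C.jacobi, h43 _ (XXw_mem C a b) _ (Xw_mem C c), c2, add_zero]
  have c4 : ∀ a b c, C.br (C.X a) (C.br (ww C) (C.br (C.X b) (C.br (C.X c) (ww C)))) = 0 := by
    intro a b c
    rw [C.jacobi, c2, h25 _ (ww_mem C) _ (XXXw_mem C a b c), add_zero]
  have c1 : ∀ a b c, C.br (C.X a) (C.br (C.X b) (C.br (ww C) (C.br (C.X c) (ww C)))) = 0 := by
    intro a b c
    rw [C.jacobi (C.X b) (ww C), map_add, c3, c4, add_zero]
  refine ⟨c1, c2, c3, fun l => ?_⟩
  have d1 : ∀ a b, l (C.br (C.br (C.X a) (ww C)) (C.br (C.X b) (ww C))) = rh C l * cr a b := by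
    intro a b
    rw [Xww, map_smul, smul_eq_mul, mul_comm]
    rfl
  have hjac : ∀ a b, sg C l a b = rh C l * cr a b +
      l (C.br (ww C) (C.br (C.X a) (C.br (C.X b) (ww C)))) := by
    intro a b
    unfold sg
    rw [C.jacobi (C.X a) (ww C), map_add, d1]
  refine ⟨d1, ?_, ?_⟩
  · intro a b
    rw [hjac, hjac, swap C b a]
    have : cr b a = -cr a b := by
      unfold cr
      ring
    rw [this]
    ring
  · intro hal hsg hrh j k hj hk x hx y hy
    have k22 : ∀ x ∈ C.V 2, ∀ y ∈ C.V 2, l (C.br x y) = 0 := by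
      intro x hx y hy
      obtain ⟨c, rfl⟩ := mem_V2 C hx
      obtain ⟨d, rfl⟩ := mem_V2 C hy
      simp only [map_smul, ContinuousLinearMap.smul_apply, C.br_self, smul_zero, map_zero]
    have k23 : ∀ x ∈ C.V 2, ∀ y ∈ C.V 3, l (C.br x y) = 0 := by
      intro x hx y hy
      obtain ⟨c, rfl⟩ := mem_V2 C hx
      obtain ⟨b, rfl⟩ := mem_V3 C hy
      rw [map_smul, ContinuousLinearMap.smul_apply, map_smul]
      have := hal b
      unfold al at this
      rw [this, smul_zero]
    have k33 : ∀ x ∈ C.V 3, ∀ y ∈ C.V 3, l (C.br x y) = 0 := by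
      intro x hx y hy
      obtain ⟨a, rfl⟩ := mem_V3 C hx
      obtain ⟨b, rfl⟩ := mem_V3 C hy
      rw [d1, hrh, zero_mul]
    have k24 : ∀ x ∈ C.V 2, ∀ y ∈ C.V 4, l (C.br x y) = 0 := by
      intro x hx y hy
      obtain ⟨c, rfl⟩ := mem_V2 C hx
      rw [map_smul, ContinuousLinearMap.smul_apply, map_smul]
      have : l (C.br (ww C) y) = 0 := by
        refine V4_ind C (p := fun y => l (C.br (ww C) y) = 0) (by simp) ?_ ?_ ?_ hy
        · intro x y h1 h2
          rw [map_add, map_add, h1, h2, add_zero]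
        · intro t x h1
          rw [map_smul, map_smul, h1, smul_zero]
        · intro a b
          have h1 := hjac a b
          rw [hsg, hrh, zero_mul, zero_add] at h1
          exact h1.symm
      rw [this, smul_zero]
    have anti : ∀ {j k : ℕ}, (∀ x ∈ C.V j, ∀ y ∈ C.V k, l (C.br x y) = 0) →
        ∀ x ∈ C.V k, ∀ y ∈ C.V j, l (C.br x y) = 0 := by
      intro j k h x hx y hy
      rw [skew C, map_neg, h y hy x hx, neg_zero]
    rcases le_or_gt 8 (j + k) with h8 | h8
    · have h1 := (hG C).1 j k x hx y hy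
      rw [C.V_big (j + k) (by omega)] at h1
      rw [(Submodule.mem_bot ℝ).1 h1, map_zero]
    · have hj5 : j ≤ 5 := by omega
      have hk5 : k ≤ 5 := by omega
      interval_cases j <;> interval_cases k <;>
        first
        | omega
        | exact k22 x hx y hy
        | exact k23 x hx y hy
        | exact k33 x hx y hy
        | exact k24 x hx y hy
        | exact anti k23 x hx y hy
        | exact anti k24 x hx y hy
        | (rw [h25 x hx y hy, map_zero])
        | (rw [h34 x hx y hy, map_zero])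
        | (rw [h43 x hx y hy, map_zero])
        | (rw [h52 x hx y hy, map_zero])

end Pool.Agent.CutLoci.H74
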